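import Pool.Agent.Q255.IC.Stm

/-!
# Job BLK of project IC: the dimension of the sequences with all blocks in a set of words
-/

set_option autoImplicit false

namespace Pool.Agent.Q92.IC

open Filter Topology MeasureTheory Pool.Agent.Q255.IC
open scoped ENNReal NNReal

theorem t_BLK : S_BLK := by
  classical
  intro K W hK hW
  obtain ⟨M, hM⟩ : ∃ M, M = W.card := ⟨_, rfl⟩
  rw [← hM]
  rcases Nat.lt_or_ge M 2 with h2 | h2
  · have h0 : Real.log M = 0 := by interval_cases M <;> simp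
    rw [h0, zero_div]
    simp
  have hM0 : 0 < M := by omega
  have hM1 : (1 : ℝ) < M := by exact_mod_cast h2
  have hMp : (0 : ℝ) < M := by linarith
  have hlogM : 0 < Real.log M := Real.log_pos hM1
  have hlog2 : 0 < Real.log 2 := Real.log_pos (by norm_num)
  have hK' : (0 : ℝ) < K := by exact_mod_cast hK
  obtain ⟨e⟩ : Nonempty (W ≃ Fin M) := ⟨W.equivFinOfCardEq hM.symm⟩
  obtain ⟨blk, hblk⟩ : ∃ blk : (ℕ → Bool) → ℕ → (Fin K → Bool), blk = fun ω i k => ω (i * K + k) := ⟨_, rfl⟩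
  obtain ⟨S, hS⟩ : ∃ S : Set (ℕ → Bool), S = {ω | ∀ i : ℕ, (fun k : Fin K => ω (i * K + k)) ∈ W} := ⟨_, rfl⟩
  rw [← hS]
  have hSb : ∀ ω ∈ S, ∀ i, blk ω i ∈ W := by
    intro ω hω i
    rw [hS] at hω
    rw [hblk]
    exact hω i
  obtain ⟨d, hd⟩ : ∃ d : (ℕ → Bool) → ℕ → Fin M, d = fun ω i => if h : blk ω i ∈ W then e ⟨_, h⟩ else ⟨0, hM0⟩ := ⟨_, rfl⟩
  obtain ⟨φ, hφ⟩ : ∃ φ : (ℕ → Bool) → ℝ, φ = fun ω => Real.ofDigits (d ω) := ⟨_, rfl⟩
  obtain ⟨σ, hσ⟩ : ∃ σ : ℝ, σ = Real.log M / (K * Real.log 2) := ⟨_, rfl⟩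
  have hσ0 : 0 < σ := by rw [hσ]; positivity
  rw [← hσ]
  unfold dimS
  let _ : MetricSpace (ℕ → Bool) := PiNat.metricSpace (E := fun _ => Bool)
  -- the Hölder condition
  have hreal : ∀ x y : ℕ → Bool, dist (φ x) (φ y) ≤ M * dist x y ^ σ := by
    intro x y
    by_cases hxy : x = y
    · rw [hxy, dist_self, dist_self]
      positivity
    have hdist : dist x y = (1 / 2 : ℝ) ^ PiNat.firstDiff x y := PiNat.dist_eq_of_ne hxy
    obtain ⟨n, hn⟩ : ∃ n, n = PiNat.firstDiff x y := ⟨_, rfl⟩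
    rw [hdist, ← hn]
    have hagree : ∀ i < n, x i = y i := by
      intro i hi
      rw [hn] at hi
      exact PiNat.apply_eq_of_lt_firstDiff hi
    have hdig : ∀ i < n / K, d x i = d y i := by
      intro i hi
      have hb : blk x i = blk y i := by
        rw [hblk]
        funext k
        apply hagree
        have h1 : (i + 1) * K ≤ n := by
          have := Nat.div_mul_le_self n K
          have h3 : (i + 1) * K ≤ n / K * K := Nat.mul_le_mul_right K hi
          omega
        have h4 : (i + 1) * K = i * K + K := by ring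
        have h5 := k.2
        omega
      rw [hd]
      simp only [hb]
    have h3 := Real.abs_ofDigits_sub_ofDigits_le (x := d x) (y := d y) (n := n / K) hdig
    rw [Real.dist_eq, hφ]
    refine h3.trans ?_
    have h4 : ((1 / 2 : ℝ) ^ n) ^ σ = (M : ℝ) ^ (-((n : ℝ) / K)) := by
      rw [← Real.rpow_natCast, ← Real.rpow_mul (by norm_num), Real.rpow_def_of_pos (by norm_num),
        Real.rpow_def_of_pos hMp]
      congr 1
      rw [hσ, one_div, Real.log_inv]
      field_simp
    rw [h4]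
    have h5 : (((M : ℝ)) ^ (n / K))⁻¹ = M * (M : ℝ) ^ (-(((n / K : ℕ) : ℝ) + 1)) := by
      rw [Real.rpow_neg hMp.le, Real.rpow_add hMp, Real.rpow_one, Real.rpow_natCast]
      field_simp
    rw [h5]
    apply mul_le_mul_of_nonneg_left _ hMp.le
    apply Real.rpow_le_rpow_of_exponent_le hM1.le
    rw [neg_le_neg_iff, div_le_iff₀ hK']
    have h6 : n < (n / K + 1) * K := by
      have := Nat.lt_mul_div_succ n hK
      rw [Nat.mul_comm] at this
      exact this
    exact_mod_cast h6.le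
  have hhol : HolderOnWith (M : ℝ≥0) σ.toNNReal φ S := by
    intro x _ y _
    rw [edist_dist, edist_dist, Real.coe_toNNReal _ hσ0.le,
      ENNReal.ofReal_rpow_of_nonneg dist_nonneg hσ0.le]
    have h7 : ((M : ℝ≥0) : ℝ≥0∞) = ENNReal.ofReal M := by
      rw [ENNReal.ofReal_natCast]
      rfl
    rw [h7, ← ENNReal.ofReal_mul hMp.le]
    exact ENNReal.ofReal_le_ofReal (hreal x y)
  -- surjectivity
  have himg : Set.Icc (0 : ℝ) 1 ⊆ φ '' S := by
    intro t ht
    have hsurj := Real.ofDigits_SurjOn (b := M) (by omega)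
    obtain ⟨a, -, ha⟩ := hsurj ht
    obtain ⟨ω, hω⟩ : ∃ ω : ℕ → Bool, ω = fun m => (e.symm (a (m / K))).1 ⟨m % K, Nat.mod_lt _ hK⟩ := ⟨_, rfl⟩
    have hb : ∀ i, blk ω i = (e.symm (a i)).1 := by
      intro i
      rw [hblk]
      funext k
      rw [hω]
      simp only
      have h8 : (i * K + k) / K = i := by
        rw [Nat.add_comm, Nat.add_mul_div_right _ _ hK, Nat.div_eq_of_lt k.2]
        simp
      have h9 : (i * K + k) % K = k := by
        rw [Nat.add_comm, Nat.add_mul_mod_self_right, Nat.mod_eq_of_lt k.2]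
      simp only [h8, h9]
    refine ⟨ω, ?_, ?_⟩
    · rw [hS]
      intro i
      have h10 : (fun k : Fin K => ω (i * K + k)) = (e.symm (a i)).1 := by
        rw [← hb i, hblk]
      rw [h10]
      exact (e.symm (a i)).2
    · rw [hφ]
      simp only
      rw [← ha]
      congr 1
      funext i
      rw [hd]
      simp only
      have h11 : blk ω i ∈ W := by rw [hb i]; exact (e.symm (a i)).2
      rw [dif_pos h11]
      have h12 : (⟨blk ω i, h11⟩ : W) = e.symm (a i) := Subtype.ext (hb i)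
      rw [h12, e.apply_symm_apply]
  have hdim1 : (1 : ℝ≥0∞) ≤ dimH (φ '' S) := by
    have h13 : dimH (Set.Icc (0 : ℝ) 1) = 1 := by
      have := Real.dimH_of_nonempty_interior (E := ℝ) (s := Set.Icc (0 : ℝ) 1) (by
        rw [interior_Icc]
        exact ⟨1 / 2, by norm_num, by norm_num⟩)
      rw [this]
      simp
    rw [← h13]
    exact dimH_mono himg
  have h14 := hhol.dimH_image_le (by simpa using hσ0)
  have h15 : (1 : ℝ≥0∞) ≤ dimH S / (σ.toNNReal : ℝ≥0∞) := hdim1.trans h14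
  have h16 : (σ.toNNReal : ℝ≥0∞) ≠ 0 := by simpa using hσ0
  rw [ENNReal.le_div_iff_mul_le (Or.inl h16) (Or.inl ENNReal.coe_ne_top), one_mul] at h15
  exact h15

end Pool.Agent.Q92.IC
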