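import Pool.Agent.Q255.IC.Stm

/-!
# Job LOG of project IC: the logarithm of the twisted Euler product
-/

set_option autoImplicit false

namespace Pool.Agent.Q92.IC

open Filter Topology MeasureTheory Pool.Agent.Q255.IC

theorem pr_ge (k : ℕ) : k + 2 ≤ pr k := Nat.add_two_le_nth_prime k

theorem pr_pos (k : ℕ) : (0 : ℝ) < pr k := by
  have := pr_ge k
  have h : 0 < pr k := by omega
  exact_mod_cast h

theorem pr_ge' (k : ℕ) : ((k : ℝ) + 1) ≤ pr k := by
  have := pr_ge k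
  have h : k + 1 ≤ pr k := by omega
  exact_mod_cast h

theorem pr_two (k : ℕ) : (2 : ℝ) ≤ pr k := by
  have := pr_ge k
  have h : 2 ≤ pr k := by omega
  exact_mod_cast h

theorem sg_abs (ω : ℕ → Bool) (k : ℕ) : |sg ω k| = 1 := by
  unfold sg
  split_ifs <;> simp

theorem summable_pr {h : ℝ} (hh : 0 < h) : Summable fun k : ℕ => (pr k : ℝ) ^ (-1 - h) := by
  have h1 : Summable fun k : ℕ => ((k + 1 : ℕ) : ℝ) ^ (-1 - h) :=
    (summable_nat_add_iff 1).2 (Real.summable_nat_rpow.2 (by linarith))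
  refine Summable.of_nonneg_of_le (fun k => Real.rpow_nonneg (pr_pos k).le _) (fun k => ?_) h1
  apply Real.rpow_le_rpow_of_nonpos (by positivity) _ (by linarith)
  push_cast
  exact pr_ge' k

theorem summable_sq : Summable fun k : ℕ => ((k : ℝ) + 1) ^ (-2 : ℝ) := by
  have h1 : Summable fun k : ℕ => ((k + 1 : ℕ) : ℝ) ^ (-2 : ℝ) :=
    (summable_nat_add_iff 1).2 (Real.summable_nat_rpow.2 (by norm_num))
  simpa using h1

theorem t_LOG : S_LOG := by
  intro N
  refine ⟨N * ∑' k : ℕ, ((k : ℝ) + 1) ^ (-2 : ℝ), ?_⟩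
  intro w α ω h hα hh hh1
  -- the numbers `z`
  obtain ⟨x, hx⟩ : ∃ x : ℕ → ℝ, x = fun k => (pr k : ℝ) ^ (-(w / 2 + 1 + h)) := ⟨_, rfl⟩
  have hx0 : ∀ k, 0 < x k := fun k => by rw [hx]; exact Real.rpow_pos_of_pos (pr_pos k) _
  have hxc : ∀ k, (pr k : ℂ) ^ (-((w / 2 + 1 + h : ℝ) : ℂ)) = (x k : ℂ) := by
    intro k
    rw [hx]
    simp only
    rw [Complex.ofReal_cpow (pr_pos k).le]
    push_cast
    rfl
  obtain ⟨z, hz⟩ : ∃ z : ℕ → Fin N → ℂ, z = fun k j => (sg ω k : ℂ) * α k j * (x k : ℂ) := ⟨_, rfl⟩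
  have hy : ∀ k, (pr k : ℝ) ^ (w / 2) * x k = (pr k : ℝ) ^ (-1 - h) := by
    intro k
    rw [hx]
    simp only
    rw [← Real.rpow_add (pr_pos k)]
    congr 1
    ring
  have hzn : ∀ k j, ‖z k j‖ ≤ (pr k : ℝ) ^ (-1 - h) := by
    intro k j
    rw [hz]
    simp only
    rw [norm_mul, norm_mul, Complex.norm_real, Complex.norm_real, Real.norm_eq_abs, Real.norm_eq_abs, sg_abs,
      abs_of_pos (hx0 k), one_mul, ← hy k]
    exact mul_le_mul_of_nonneg_right (hα k j) (hx0 k).le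
  have hyl : ∀ k, (pr k : ℝ) ^ (-1 - h) ≤ (pr k : ℝ) ^ (-1 : ℝ) := fun k =>
    Real.rpow_le_rpow_of_exponent_le (by linarith [pr_two k]) (by linarith)
  have hyh : ∀ k, (pr k : ℝ) ^ (-1 : ℝ) ≤ 1 / 2 := by
    intro k
    rw [Real.rpow_neg_one, one_div]
    exact inv_anti₀ (by norm_num) (pr_two k)
  have hzh : ∀ k j, ‖z k j‖ ≤ 1 / 2 := fun k j => (hzn k j).trans ((hyl k).trans (hyh k))
  have hzsq : ∀ k j, ‖z k j‖ ^ 2 ≤ ((k : ℝ) + 1) ^ (-2 : ℝ) := by
    intro k j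
    have h1 : ‖z k j‖ ≤ (pr k : ℝ) ^ (-1 : ℝ) := (hzn k j).trans (hyl k)
    have h2 : ‖z k j‖ ^ 2 ≤ ((pr k : ℝ) ^ (-1 : ℝ)) ^ 2 := pow_le_pow_left₀ (norm_nonneg _) h1 2
    refine h2.trans ?_
    have e : ((pr k : ℝ) ^ (-1 : ℝ)) ^ 2 = (pr k : ℝ) ^ (-2 : ℝ) := by
      rw [← Real.rpow_natCast, ← Real.rpow_mul (pr_pos k).le]
      norm_num
    rw [e]
    exact Real.rpow_le_rpow_of_nonpos (by positivity : (0 : ℝ) < (k : ℝ) + 1) (pr_ge' k) (by norm_num)
  have hne : ∀ k j, 1 - z k j ≠ 0 := by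
    intro k j h0
    have : z k j = 1 := (sub_eq_zero.1 h0).symm
    have h1 := hzh k j
    rw [this, norm_one] at h1
    norm_num at h1
  -- the logarithms
  have hlog : ∀ k j, ‖Complex.log (1 - z k j) + z k j‖ ≤ ‖z k j‖ ^ 2 := by
    intro k j
    have h1 := hzh k j
    have h2 := Complex.norm_log_one_add_sub_self_le (z := -z k j) (by rw [norm_neg]; linarith)
    rw [norm_neg, ← sub_eq_add_neg, sub_neg_eq_add] at h2
    refine h2.trans ?_
    have h3 : (1 - ‖z k j‖)⁻¹ ≤ 2 := by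
      rw [inv_le_comm₀ (by linarith) (by norm_num)]
      norm_num
      linarith
    have h4 : 0 ≤ ‖z k j‖ ^ 2 := by positivity
    nlinarith [mul_le_mul_of_nonneg_left h3 h4]
  obtain ⟨g, hg⟩ : ∃ g : ℕ → ℂ, g = fun k => -∑ j, Complex.log (1 - z k j) := ⟨_, rfl⟩
  have hexp : ∀ k, Complex.exp (g k) = (∏ j, (1 - (sg ω k : ℂ) * α k j * (pr k : ℂ) ^ (-((w / 2 + 1 + h : ℝ) : ℂ))))⁻¹ := by
    intro k
    rw [hg]
    simp only
    rw [Complex.exp_neg, Complex.exp_sum]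
    congr 1
    refine Finset.prod_congr rfl fun j _ => ?_
    rw [Complex.exp_log (hne k j), hxc k, hz]
  have hgn : ∀ k, ‖g k‖ ≤ N * (2 * (pr k : ℝ) ^ (-1 - h)) := by
    intro k
    rw [hg]
    simp only
    rw [norm_neg]
    refine (norm_sum_le _ _).trans ?_
    calc ∑ j, ‖Complex.log (1 - z k j)‖ ≤ ∑ _j : Fin N, 2 * (pr k : ℝ) ^ (-1 - h) := by
          refine Finset.sum_le_sum fun j _ => ?_
          have h1 := hlog k j
          have h2 : ‖Complex.log (1 - z k j)‖ ≤ ‖Complex.log (1 - z k j) + z k j‖ + ‖z k j‖ := by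
            have := norm_sub_le (Complex.log (1 - z k j) + z k j) (z k j)
            rwa [add_sub_cancel_right] at this
          have h3 := hzn k j
          have h4 := hzh k j
          nlinarith [norm_nonneg (z k j)]
      _ = _ := by simp
  have hgs : Summable g := Summable.of_norm_bounded (((summable_pr hh).mul_left 2).mul_left (N : ℝ)) hgn
  have hprod : HasProd (fun k => (∏ j, (1 - (sg ω k : ℂ) * α k j * (pr k : ℂ) ^ (-((w / 2 + 1 + h : ℝ) : ℂ))))⁻¹)
      (Complex.exp (∑' k, g k)) := by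
    have h1 := hgs.hasSum.cexp
    refine h1.congr_fun ?_
    intro k
    exact (hexp k).symm
  have hLF : LF α ω ((w / 2 + 1 + h : ℝ) : ℂ) = Complex.exp (∑' k, g k) := hprod.tprod_eq
  refine ⟨hprod.multipliable, ?_, ?_⟩
  · rw [hLF]
    exact Complex.exp_ne_zero _
  · rw [hLF, Complex.norm_exp, Real.log_exp, Complex.re_tsum hgs]
    have hre : ∀ k, |(g k).re - sg ω k * av w α k * (pr k : ℝ) ^ (-1 - h)| ≤ N * ((k : ℝ) + 1) ^ (-2 : ℝ) := by
      intro k
      have e1 : sg ω k * av w α k * (pr k : ℝ) ^ (-1 - h) = (∑ j, z k j).re := by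
        have e2 : ∑ j, z k j = ((sg ω k * x k : ℝ) : ℂ) * ∑ j, α k j := by
          rw [Finset.mul_sum, hz]
          refine Finset.sum_congr rfl fun j _ => ?_
          push_cast
          ring
        rw [e2, Complex.re_ofReal_mul]
        unfold av
        have e3 : (pr k : ℝ) ^ (-(w / 2)) * (pr k : ℝ) ^ (-1 - h) = x k := by
          rw [← hy k, ← mul_assoc, ← Real.rpow_add (pr_pos k)]
          simp
        calc sg ω k * ((∑ j, α k j).re * (pr k : ℝ) ^ (-(w / 2))) * (pr k : ℝ) ^ (-1 - h) =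
            sg ω k * (∑ j, α k j).re * ((pr k : ℝ) ^ (-(w / 2)) * (pr k : ℝ) ^ (-1 - h)) := by ring
          _ = _ := by rw [e3]; ring
      rw [e1, ← Complex.sub_re]
      refine (Complex.abs_re_le_norm _).trans ?_
      have e4 : g k - ∑ j, z k j = -∑ j, (Complex.log (1 - z k j) + z k j) := by
        rw [hg, Finset.sum_add_distrib]
        ring
      rw [e4, norm_neg]
      refine (norm_sum_le _ _).trans ?_
      calc ∑ j, ‖Complex.log (1 - z k j) + z k j‖ ≤ ∑ _j : Fin N, ((k : ℝ) + 1) ^ (-2 : ℝ) :=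
            Finset.sum_le_sum fun j _ => (hlog k j).trans (hzsq k j)
        _ = _ := by simp
    have hs1 : Summable fun k => (g k).re := (Complex.hasSum_re hgs.hasSum).summable
    have hs2 : Summable fun k => sg ω k * av w α k * (pr k : ℝ) ^ (-1 - h) := by
      have h1 : Summable fun k => (g k).re - sg ω k * av w α k * (pr k : ℝ) ^ (-1 - h) :=
        Summable.of_norm_bounded (summable_sq.mul_left (N : ℝ)) hre
      have h2 := hs1.sub h1
      simpa using h2
    unfold DS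
    rw [← hs1.tsum_sub hs2, ← tsum_mul_left]
    have hre' : ∀ k, ‖(g k).re - sg ω k * av w α k * (pr k : ℝ) ^ (-1 - h)‖ ≤ N * ((k : ℝ) + 1) ^ (-2 : ℝ) := hre
    have hsn : Summable fun k => ‖(g k).re - sg ω k * av w α k * (pr k : ℝ) ^ (-1 - h)‖ :=
      (summable_sq.mul_left (N : ℝ)).of_nonneg_of_le (fun _ => norm_nonneg _) hre'
    exact (norm_tsum_le_tsum_norm hsn).trans (hsn.tsum_le_tsum hre' (summable_sq.mul_left (N : ℝ)))

end Pool.Agent.Q92.IC
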